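import Pool.Agent.H37.UM.Stmts

set_option autoImplicit false

namespace Pool.Agent.H37.UM

open PowerSeries Finset

namespace MOx

/-- `F m` as a real polynomial -/
noncomputable def pF (m : ℕ) : Polynomial ℤ :=
  (∑ i ∈ range (op m), Polynomial.X ^ i) *
    ∏ a ∈ range (padicValNat 2 m), (1 + Polynomial.X ^ (2 ^ (a + 1) * op m))

noncomputable def pT (N : ℕ) : Polynomial ℤ := ∏ m ∈ Ioc 0 N, pF m

theorem coe_prod {ι : Type} (s : Finset ι) (f : ι → Polynomial ℤ) :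
    ((∏ m ∈ s, f m : Polynomial ℤ) : ℤ⟦X⟧) = ∏ m ∈ s, (f m : ℤ⟦X⟧) := by
  classical
  induction s using Finset.induction_on with
  | empty => simp
  | insert a s ha ih => rw [Finset.prod_insert ha, Finset.prod_insert ha, Polynomial.coe_mul, ih]

theorem coe_sum {ι : Type} (s : Finset ι) (f : ι → Polynomial ℤ) :
    ((∑ m ∈ s, f m : Polynomial ℤ) : ℤ⟦X⟧) = ∑ m ∈ s, (f m : ℤ⟦X⟧) := by
  classical
  induction s using Finset.induction_on with
  | empty => simp
  | insert a s ha ih => rw [Finset.sum_insert ha, Finset.sum_insert ha, Polynomial.coe_add, ih]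

theorem coe_pF (m : ℕ) : (pF m : ℤ⟦X⟧) = F m := by
  unfold pF F iv
  rw [Polynomial.coe_mul, coe_sum, coe_prod]
  simp

theorem coe_pT (N : ℕ) : (pT N : ℤ⟦X⟧) = T N := by
  unfold pT T U
  rw [coe_prod]
  exact Finset.prod_congr rfl fun m _ => coe_pF m

/-- the value at a real point -/
noncomputable def ev (r : ℝ) : Polynomial ℤ →+* ℝ := Polynomial.eval₂RingHom (Int.castRingHom ℝ) r

theorem ev_X (r : ℝ) : ev r Polynomial.X = r := by simp [ev]

theorem ev_pF (m : ℕ) (r : ℝ) : ev r (pF m) = Fe m r := by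
  unfold pF Fe
  simp [map_sum, map_prod, ev_X]

theorem Ioc_eq (N : ℕ) : Ioc 0 N = Icc 1 N := by
  ext m
  simp only [Finset.mem_Ioc, Finset.mem_Icc]
  omega

theorem ev_pT (N : ℕ) (r : ℝ) : ev r (pT N) = Te N r := by
  unfold pT Te
  rw [map_prod, Ioc_eq]
  exact Finset.prod_congr rfl fun m _ => ev_pF m r

theorem coeff_pT (N k : ℕ) : (pT N).coeff k = coeff k (T N) := by
  rw [← coe_pT, Polynomial.coeff_coe]

theorem natDegree_pT (hUU : UUStmt) (N : ℕ) : (pT N).natDegree < dg N + 1 := by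
  refine Nat.lt_succ_of_le (Polynomial.natDegree_le_iff_coeff_eq_zero.2 fun k hk => ?_)
  rw [coeff_pT]
  exact (hUU.1 0 N).top k hk

theorem Te_eq (hUU : UUStmt) (N : ℕ) (r : ℝ) :
    Te N r = ∑ i ∈ range (dg N + 1), ((coeff i (T N) : ℤ) : ℝ) * r ^ i := by
  rw [← ev_pT]
  unfold ev
  rw [Polynomial.coe_eval₂RingHom, Polynomial.eval₂_eq_sum_range' _ (natDegree_pT hUU N)]
  refine Finset.sum_congr rfl fun i _ => ?_
  rw [coeff_pT]
  simp

theorem Fe_pos (hOP : OPStmt) {m : ℕ} (hm : 1 ≤ m) {r : ℝ} (hr : 0 < r) : 0 < Fe m r := by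
  unfold Fe
  have h := (hOP.1 m hm).2.1
  refine mul_pos ?_ (Finset.prod_pos fun a _ => by positivity)
  exact Finset.sum_pos (fun i _ => by positivity) ⟨0, Finset.mem_range.2 h⟩

theorem Te_pos (hOP : OPStmt) (N : ℕ) {r : ℝ} (hr : 0 < r) : 0 < Te N r := by
  unfold Te
  exact Finset.prod_pos fun m hm => Fe_pos hOP (Finset.mem_Icc.1 hm).1 hr

theorem Fe_one (hOP : OPStmt) {m : ℕ} (hm : 1 ≤ m) : Fe m 1 = m := by
  unfold Fe
  have h := (hOP.1 m hm).2.2.2
  have h2 : (∏ a ∈ range (padicValNat 2 m), (1 + (1 : ℝ) ^ (2 ^ (a + 1) * op m))) =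
      2 ^ padicValNat 2 m := by
    simp only [one_pow]
    rw [Finset.prod_const, Finset.card_range]
    norm_num
  rw [h2]
  simp only [one_pow, Finset.sum_const, Finset.card_range, nsmul_eq_mul, mul_one]
  conv_rhs => rw [h]
  push_cast
  ring

theorem Te_succ (N : ℕ) (r : ℝ) : Te (N + 1) r = Te N r * Fe (N + 1) r := by
  unfold Te
  rw [Finset.prod_Icc_succ_top (by omega)]

theorem Te_one (hOP : OPStmt) (N : ℕ) : Te N 1 = (N.factorial : ℝ) := by
  induction N with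
  | zero => simp [Te]
  | succ N ih =>
    rw [Te_succ, ih, Fe_one hOP (by omega), Nat.factorial_succ]
    push_cast
    ring

/-- the functional equation of `F m` for the values -/
theorem Fe_mul (hFF : FFStmt) {m : ℕ} (hm : 1 ≤ m) :
    pF m * ((1 - Polynomial.X) * (1 + Polynomial.X ^ op m)) = 1 - Polynomial.X ^ (2 * m) := by
  apply Polynomial.coe_injective
  have h := hFF.2.1 m hm
  rw [← coe_pF] at h
  simpa using h

theorem Fe_closed (hFF : FFStmt) {m : ℕ} (hm : 1 ≤ m) (r : ℝ) :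
    Fe m r * ((1 - r) * (1 + r ^ op m)) = 1 - r ^ (2 * m) := by
  have h := congrArg (ev r) (Fe_mul hFF hm)
  simpa [ev_pF, ev_X, map_mul] using h

theorem Fe_le (hOP : OPStmt) (hFF : FFStmt) {m : ℕ} (hm : 1 ≤ m) {r : ℝ} (hr : 0 < r)
    (hr1 : r < 1) : Fe m r ≤ 1 / (1 - r) := by
  have h := Fe_closed hFF hm r
  have h1 : 0 < 1 - r := by linarith
  rw [le_div_iff₀ h1]
  have h2 := Fe_pos hOP hm hr
  have h3 : 0 < r ^ op m := by positivity
  have h4 : 0 < r ^ (2 * m) := by positivity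
  have h5 : 0 < Fe m r * (1 - r) := mul_pos h2 h1
  nlinarith [mul_pos h5 h3]

theorem Te_le (hOP : OPStmt) (hFF : FFStmt) (b N : ℕ) {r : ℝ} (hb : b ≤ N) (hr : 0 < r)
    (hr1 : r < 1) : Te N r ≤ (1 / (1 - r)) ^ b * Te (N - b) r := by
  induction b with
  | zero => simp
  | succ b ih =>
    refine (ih (by omega)).trans ?_
    have h1 : N - b = (N - (b + 1)) + 1 := by omega
    rw [h1, Te_succ, pow_succ]
    have h2 := Fe_le hOP hFF (m := N - (b + 1) + 1) (by omega) hr hr1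
    have h3 := Te_pos hOP (N - (b + 1)) hr
    have h4 : 0 < 1 / (1 - r) := by
      have : 0 < 1 - r := by linarith
      positivity
    calc (1 / (1 - r)) ^ b * (Te (N - (b + 1)) r * Fe (N - (b + 1) + 1) r)
        ≤ (1 / (1 - r)) ^ b * (Te (N - (b + 1)) r * (1 / (1 - r))) := by gcongr
      _ = _ := by ring

theorem pair_le {r : ℝ} (hr : 0 < r) {D i : ℕ} (hi : i ≤ D) :
    2 * r ^ ((D : ℝ) / 2) ≤ r ^ i + r ^ (D - i) := by
  have h1 : r ^ i = r ^ ((i : ℝ) / 2) * r ^ ((i : ℝ) / 2) := by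
    rw [← Real.rpow_add hr, ← Real.rpow_natCast]
    congr 1
    ring
  have h2 : r ^ (D - i) = r ^ (((D : ℝ) - i) / 2) * r ^ (((D : ℝ) - i) / 2) := by
    rw [← Real.rpow_add hr, ← Real.rpow_natCast, Nat.cast_sub hi]
    congr 1
    ring
  have h3 : r ^ ((D : ℝ) / 2) = r ^ ((i : ℝ) / 2) * r ^ (((D : ℝ) - i) / 2) := by
    rw [← Real.rpow_add hr]
    congr 1
    ring
  rw [h1, h2, h3]
  nlinarith [sq_nonneg (r ^ ((i : ℝ) / 2) - r ^ (((D : ℝ) - i) / 2))]

end MOx

open MOx in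
theorem MOA_thm (hOP : OPStmt) (hFF : FFStmt) (hUU : UUStmt) : MOAStmt := by
  refine ⟨Te_eq hUU, fun N r hr => Te_pos hOP N hr, Te_one hOP, ?_,
    fun b N r hb hr hr1 => Te_le hOP hFF b N hb hr hr1⟩
  intro N r hr
  have h1 : (N.factorial : ℝ) = ∑ i ∈ range (dg N + 1), ((coeff i (T N) : ℤ) : ℝ) := by
    rw [← Te_one hOP, Te_eq hUU]
    simp
  have h2 := Te_eq hUU N r
  have h3 : Te N r = ∑ i ∈ range (dg N + 1), ((coeff i (T N) : ℤ) : ℝ) * r ^ (dg N - i) := by
    rw [h2, ← Finset.sum_range_reflect]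
    refine Finset.sum_congr rfl fun i hi => ?_
    rw [Finset.mem_range] at hi
    have h4 : dg N + 1 - 1 - i = dg N - i := by omega
    rw [h4]
    have h5 : coeff (dg N - i) (T N) = coeff i (T N) := (hUU.1 0 N).sym i (by unfold dg at hi; omega)
    rw [h5]
  have h4 : (N.factorial : ℝ) * (2 * r ^ ((dg N : ℝ) / 2)) ≤ Te N r + Te N r := by
    conv_rhs => rw [h3]
    conv_rhs => lhs; rw [← h3, h2]
    rw [h1, Finset.sum_mul, ← Finset.sum_add_distrib]
    refine Finset.sum_le_sum fun i hi => ?_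
    rw [Finset.mem_range] at hi
    have h5 : (0 : ℝ) ≤ ((coeff i (T N) : ℤ) : ℝ) := by exact_mod_cast hUU.2.1 0 N i
    rw [← mul_add]
    exact mul_le_mul_of_nonneg_left (pair_le hr (by omega)) h5
  linarith

end Pool.Agent.H37.UM
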