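import Pool.Agent.H93.UM.MOA

set_option autoImplicit false

namespace Pool.Agent.H37.UM

open PowerSeries Finset

namespace MOx

/-- `r p'(r)` -/
noncomputable def dv (r : ℝ) (p : Polynomial ℤ) : ℝ := r * ev r (Polynomial.derivative p)

theorem dv_mul (r : ℝ) (p q : Polynomial ℤ) :
    dv r (p * q) = dv r p * ev r q + ev r p * dv r q := by
  unfold dv
  rw [Polynomial.derivative_mul, map_add, map_mul, map_mul]
  ring

theorem dv_eq (r : ℝ) (p : Polynomial ℤ) (n : ℕ) (h : p.natDegree < n) :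
    dv r p = ∑ i ∈ range n, (i : ℝ) * ((p.coeff i : ℝ) * r ^ i) := by
  have h0 : p = ∑ i ∈ range n, Polynomial.C (p.coeff i) * Polynomial.X ^ i := by
    conv_lhs => rw [p.as_sum_range' n h]
    exact Finset.sum_congr rfl fun i _ => (Polynomial.C_mul_X_pow_eq_monomial).symm
  unfold dv
  conv_lhs => rw [h0]
  rw [Polynomial.derivative_sum, map_sum, Finset.mul_sum]
  refine Finset.sum_congr rfl fun i _ => ?_
  rw [Polynomial.derivative_C_mul_X_pow]
  cases i with
  | zero => simp [ev]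
  | succ i =>
    simp only [map_mul, map_pow, ev_X, Nat.add_sub_cancel]
    simp [ev]
    ring

theorem mu_eq (hUU : UUStmt) (N : ℕ) (r : ℝ) : mu N r = dv r (pT N) / ev r (pT N) := by
  unfold mu
  rw [dv_eq r _ _ (natDegree_pT hUU N), ev_pT]
  congr 1
  refine Finset.sum_congr rfl fun i _ => ?_
  rw [coeff_pT]

theorem pT_succ (N : ℕ) : pT (N + 1) = pT N * pF (N + 1) := by
  unfold pT
  rw [Finset.prod_Ioc_succ_top (by omega)]

theorem mu_succ (hOP : OPStmt) (hUU : UUStmt) (N : ℕ) {r : ℝ} (hr : 0 < r) :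
    mu (N + 1) r = mu N r + dv r (pF (N + 1)) / Fe (N + 1) r := by
  rw [mu_eq hUU, mu_eq hUU, pT_succ, dv_mul, map_mul, ev_pT, ev_pF]
  have h1 := (Te_pos hOP N hr).ne'
  have h2 := (Fe_pos hOP (m := N + 1) (by omega) hr).ne'
  field_simp

theorem coeff_pF_nonneg (hFF : FFStmt) {m : ℕ} (hm : 1 ≤ m) (k : ℕ) : 0 ≤ (pF m).coeff k := by
  rw [← Polynomial.coeff_coe, coe_pF, hFF.1 m hm]
  split_ifs <;> norm_num

theorem mean_nonneg (hOP : OPStmt) (hFF : FFStmt) {m : ℕ} (hm : 1 ≤ m) {r : ℝ} (hr : 0 < r) :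
    0 ≤ dv r (pF m) / Fe m r := by
  refine div_nonneg ?_ (Fe_pos hOP hm hr).le
  rw [dv_eq r _ _ (Nat.lt_succ_self _)]
  refine Finset.sum_nonneg fun i _ => ?_
  have : (0 : ℝ) ≤ ((pF m).coeff i : ℝ) := by exact_mod_cast coeff_pF_nonneg hFF hm i
  positivity

theorem ev_dX (r : ℝ) (n : ℕ) :
    ev r (Polynomial.derivative (Polynomial.X ^ n)) = n * r ^ (n - 1) := by
  rw [Polynomial.derivative_X_pow, map_mul, map_pow, ev_X]
  simp

theorem mean_le (hOP : OPStmt) (hFF : FFStmt) {m : ℕ} (hm : 1 ≤ m) {r : ℝ} (hr : 0 < r)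
    (hr1 : r < 1) : dv r (pF m) / Fe m r ≤ r / (1 - r) := by
  have h := congrArg (dv r) (Fe_mul hFF hm)
  rw [dv_mul] at h
  have hd1 : dv r ((1 - Polynomial.X) * (1 + Polynomial.X ^ op m)) =
      - r * (1 + r ^ op m) + (1 - r) * (op m * r ^ op m) := by
    rw [dv_mul]
    unfold dv
    have h1 : r ^ op m = r ^ (op m - 1) * r := by
      rw [← pow_succ]
      congr 1
      have := (hOP.1 m hm).2.1
      omega
    simp only [Polynomial.derivative_add, Polynomial.derivative_sub, Polynomial.derivative_one,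
      Polynomial.derivative_X, map_sub, map_add, map_one, map_zero, map_pow, ev_X, ev_dX]
    rw [h1]
    ring
  have hd2 : dv r (1 - Polynomial.X ^ (2 * m)) = - (2 * m * r ^ (2 * m)) := by
    unfold dv
    have h1 : r ^ (2 * m) = r ^ (2 * m - 1) * r := by
      rw [← pow_succ]
      congr 1
      omega
    simp only [Polynomial.derivative_add, Polynomial.derivative_sub, Polynomial.derivative_one,
      Polynomial.derivative_X, map_sub, map_add, map_one, map_zero, map_pow, ev_X, ev_dX]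
    rw [h1]
    push_cast
    ring
  have he : ev r ((1 - Polynomial.X) * (1 + Polynomial.X ^ op m)) = (1 - r) * (1 + r ^ op m) := by
    simp [ev_X]
  rw [hd1, hd2, he, ev_pF] at h
  have hF := Fe_pos hOP hm hr
  have h1 : 0 < 1 - r := by linarith
  rw [div_le_div_iff₀ hF h1]
  have hp : 0 < r ^ op m := by positivity
  have hq : 0 < r ^ (2 * m) := by positivity
  have hm0 : (0 : ℝ) ≤ m := by positivity
  have hop0 : (0 : ℝ) ≤ op m := by positivity
  have key : (dv r (pF m) * (1 - r)) * (1 + r ^ op m) ≤ (r * Fe m r) * (1 + r ^ op m) := by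
    have h5 : 0 ≤ Fe m r * ((1 - r) * (op m * r ^ op m)) := by positivity
    have h6 : 0 ≤ 2 * (m : ℝ) * r ^ (2 * m) := by positivity
    nlinarith [h, h5, h6]
  exact le_of_mul_le_mul_right key (by positivity)

end MOx

open MOx in
theorem MOB_thm (hOP : OPStmt) (hFF : FFStmt) (hUU : UUStmt) : MOBStmt := by
  have hc0 : ∀ N i, (0 : ℝ) ≤ ((coeff i (T N) : ℤ) : ℝ) := by
    intro N i
    exact_mod_cast hUU.2.1 0 N i
  have hrefl : ∀ (N : ℕ) (φ : ℕ → ℝ),
      ∑ i ∈ range (dg N + 1), φ i * ((coeff i (T N) : ℤ) : ℝ) =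
        ∑ i ∈ range (dg N + 1), φ (dg N - i) * ((coeff i (T N) : ℤ) : ℝ) := by
    intro N φ
    rw [← Finset.sum_range_reflect]
    refine Finset.sum_congr rfl fun i hi => ?_
    rw [Finset.mem_range] at hi
    have h4 : dg N + 1 - 1 - i = dg N - i := by omega
    rw [h4]
    have h5 : coeff (dg N - i) (T N) = coeff i (T N) := (hUU.1 0 N).sym i (by unfold dg at hi; omega)
    rw [h5]
  -- the comparison with the centre
  have hcen : ∀ (N : ℕ) (r : ℝ), 0 < r → r ≤ 1 → mu N r ≤ (dg N : ℝ) / 2 := by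
    intro N r hr hr1
    unfold mu
    rw [div_le_iff₀ (Te_pos hOP N hr), Te_eq hUU]
    have h1 := hrefl N (fun i => ((i : ℝ) - (dg N : ℝ) / 2) * r ^ i)
    have h2 : ∑ i ∈ range (dg N + 1), ((i : ℝ) - (dg N : ℝ) / 2) * r ^ i *
        ((coeff i (T N) : ℤ) : ℝ) ≤ 0 := by
      have h3 : ∑ i ∈ range (dg N + 1), ((i : ℝ) - (dg N : ℝ) / 2) * r ^ i *
          ((coeff i (T N) : ℤ) : ℝ) + ∑ i ∈ range (dg N + 1), (((dg N - i : ℕ) : ℝ) -
            (dg N : ℝ) / 2) * r ^ (dg N - i) * ((coeff i (T N) : ℤ) : ℝ) ≤ 0 := by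
        rw [← Finset.sum_add_distrib]
        refine Finset.sum_nonpos fun i hi => ?_
        rw [Finset.mem_range] at hi
        have hi' : i ≤ dg N := by omega
        rw [Nat.cast_sub hi', ← add_mul]
        refine mul_nonpos_of_nonpos_of_nonneg ?_ (hc0 N i)
        rcases le_total (2 * i) (dg N) with h4 | h4
        · have h5 : (2 : ℝ) * i ≤ dg N := by exact_mod_cast h4
          have h6 : r ^ (dg N - i) ≤ r ^ i := pow_le_pow_of_le_one hr.le hr1 (by omega)
          nlinarith
        · have h5 : (dg N : ℝ) ≤ 2 * i := by exact_mod_cast h4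
          have h6 : r ^ i ≤ r ^ (dg N - i) := pow_le_pow_of_le_one hr.le hr1 (by omega)
          nlinarith
      linarith
    have h3 : ∑ i ∈ range (dg N + 1), (i : ℝ) * (((coeff i (T N) : ℤ) : ℝ) * r ^ i) -
        (dg N : ℝ) / 2 * ∑ i ∈ range (dg N + 1), ((coeff i (T N) : ℤ) : ℝ) * r ^ i =
        ∑ i ∈ range (dg N + 1), ((i : ℝ) - (dg N : ℝ) / 2) * r ^ i *
          ((coeff i (T N) : ℤ) : ℝ) := by
      rw [Finset.mul_sum, ← Finset.sum_sub_distrib]
      exact Finset.sum_congr rfl fun i _ => by ring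
    linarith
  have hnn : ∀ (N : ℕ) (r : ℝ), 0 < r → 0 ≤ mu N r := by
    intro N r hr
    unfold mu
    refine div_nonneg (Finset.sum_nonneg fun i _ => ?_) (Te_pos hOP N hr).le
    have := hc0 N i
    positivity
  have hmono : ∀ (M N : ℕ) (r : ℝ), M ≤ N → 0 < r → mu M r ≤ mu N r := by
    intro M N r hMN hr
    induction N, hMN using Nat.le_induction with
    | base => exact le_rfl
    | succ N _ ih =>
      rw [mu_succ hOP hUU N hr]
      have := mean_nonneg hOP hFF (m := N + 1) (by omega) hr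
      linarith
  refine ⟨?_, hnn, hcen, ?_, hmono, ?_⟩
  · intro N
    have h1 : mu N 1 * Te N 1 = (dg N : ℝ) / 2 * Te N 1 := by
      unfold mu
      rw [div_mul_cancel₀ _ (Te_pos hOP N one_pos).ne', Te_eq hUU]
      simp only [one_pow, mul_one]
      have h1 := hrefl N (fun i => ((i : ℝ)))
      have h2 : ∑ i ∈ range (dg N + 1), ((dg N - i : ℕ) : ℝ) * ((coeff i (T N) : ℤ) : ℝ) =
          (dg N : ℝ) * ∑ i ∈ range (dg N + 1), ((coeff i (T N) : ℤ) : ℝ) -
          ∑ i ∈ range (dg N + 1), (i : ℝ) * ((coeff i (T N) : ℤ) : ℝ) := by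
        rw [Finset.mul_sum, ← Finset.sum_sub_distrib]
        refine Finset.sum_congr rfl fun i hi => ?_
        rw [Finset.mem_range] at hi
        rw [Nat.cast_sub (by omega)]
        ring
      linarith
    exact mul_right_cancel₀ (Te_pos hOP N one_pos).ne' h1
  · intro N r hr hr1
    induction N with
    | zero =>
      have h := hcen 0 r hr hr1.le
      have h0 : dg 0 = 0 := by simp [dg, dU]
      rw [h0] at h
      simpa using h
    | succ N ih =>
      rw [mu_succ hOP hUU N hr]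
      have := mean_le hOP hFF (m := N + 1) (by omega) hr hr1
      push_cast
      have h1 : ((N : ℝ) + 1) * r / (1 - r) = N * r / (1 - r) + r / (1 - r) := by ring
      rw [h1]
      linarith
  · intro N
    unfold mu
    refine ContinuousOn.div ?_ ?_ ?_
    · fun_prop
    · have : Te N = fun r => ∑ i ∈ range (dg N + 1), ((coeff i (T N) : ℤ) : ℝ) * r ^ i := by
        funext r
        exact Te_eq hUU N r
      rw [this]
      fun_prop
    · intro r hr
      exact (Te_pos hOP N hr).ne'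

end Pool.Agent.H37.UM
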