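import Pool.Agent.H37.UM.Stmts

set_option autoImplicit false

namespace Pool.Agent.H37.UM

open PowerSeries Finset

theorem OP_thm : OPStmt := by
  have h1 : ∀ m : ℕ, 1 ≤ m → m = 2 ^ padicValNat 2 m * op m := by
    intro m hm
    have hd : 2 ^ padicValNat 2 m ∣ m := pow_padicValNat_dvd
    unfold op
    exact (Nat.mul_div_cancel' hd).symm
  have h2 : ∀ m : ℕ, 1 ≤ m → Odd (op m) := by
    intro m hm
    rw [← Nat.not_even_iff_odd]
    intro he
    obtain ⟨c, hc⟩ := he
    have hd : 2 ^ (padicValNat 2 m + 1) ∣ m := by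
      refine ⟨c, ?_⟩
      have h := h1 m hm
      rw [hc] at h
      rw [pow_succ]
      calc m = 2 ^ padicValNat 2 m * (c + c) := h
        _ = 2 ^ padicValNat 2 m * 2 * c := by ring
    exact pow_succ_padicValNat_not_dvd (p := 2) (by omega) hd
  refine ⟨fun m hm => ⟨h2 m hm, ?_, ?_, h1 m hm⟩, ?_, ?_⟩
  · obtain ⟨c, hc⟩ := h2 m hm
    omega
  · unfold op
    exact Nat.div_le_self _ _
  · intro m hm
    have hv : padicValNat 2 (2 * m) = padicValNat 2 m + 1 := by
      rw [padicValNat.mul (by norm_num) (by omega)]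
      simp [add_comm]
    have ha := h1 (2 * m) (by omega)
    have hb := h1 m hm
    rw [hv, pow_succ] at ha
    have hp : 0 < 2 ^ padicValNat 2 m * 2 := by positivity
    have : 2 ^ padicValNat 2 m * 2 * op (2 * m) = 2 ^ padicValNat 2 m * 2 * op m := by
      rw [← ha]
      calc 2 * m = 2 * (2 ^ padicValNat 2 m * op m) := by rw [← hb]
        _ = _ := by ring
    exact Nat.eq_of_mul_eq_mul_left hp this
  · intro m
    have hv : padicValNat 2 (2 * m + 1) = 0 := by
      apply padicValNat.eq_zero_of_not_dvd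
      omega
    unfold op
    rw [hv]
    simp

end Pool.Agent.H37.UM
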