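import Pool.Agent.H37.UM.Stmts

set_option autoImplicit false

namespace Pool.Agent.H37.UM

open Finset

namespace PNx

/-- multiplicity vector of a partition -/
def mult (n : ℕ) (p : n.Partition) : Fin n → Fin (n + 1) :=
  fun i => ⟨p.parts.count ((i : ℕ) + 1), by
    have h1 : p.parts.count ((i : ℕ) + 1) ≤ p.parts.card := Multiset.count_le_card _ _
    have h2 : p.parts.card ≤ p.parts.sum := by
      have := Multiset.card_nsmul_le_sum (s := p.parts) (a := 1) (fun x hx => p.parts_pos hx)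
      simpa using this
    rw [p.parts_sum] at h2
    omega⟩

theorem mult_inj (n : ℕ) : Function.Injective (mult n) := by
  intro p q h
  apply Nat.Partition.ext
  ext a
  by_cases ha : 1 ≤ a ∧ a ≤ n
  · have := congrFun h ⟨a - 1, by omega⟩
    simp only [mult, Fin.mk.injEq] at this
    rwa [Nat.sub_add_cancel ha.1] at this
  · have hz : ∀ r : n.Partition, r.parts.count a = 0 := by
      intro r
      rw [Multiset.count_eq_zero]
      intro hm
      have h1 := r.parts_pos hm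
      have h2 : a ≤ r.parts.sum := Multiset.single_le_sum (fun _ _ => Nat.zero_le _) _ hm
      rw [r.parts_sum] at h2
      omega
    rw [hz p, hz q]

theorem sum_mult (n : ℕ) (p : n.Partition) :
    ∑ i : Fin n, ((i : ℕ) + 1) * (mult n p i : ℕ) = n := by
  have h1 : ∑ a ∈ Icc 1 n, p.parts.count a * a = n := by
    conv_rhs => rw [← p.parts_sum]
    symm
    have := Finset.sum_multiset_count_of_subset p.parts (Icc 1 n) (fun a ha => by
      rw [Multiset.mem_toFinset] at ha
      have h1 := p.parts_pos ha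
      have h2 : a ≤ p.parts.sum := Multiset.single_le_sum (fun _ _ => Nat.zero_le _) _ ha
      rw [p.parts_sum] at h2
      rw [Finset.mem_Icc]
      omega)
    simpa using this
  have h2 : ∑ i : Fin n, ((i : ℕ) + 1) * (mult n p i : ℕ) =
      ∑ i ∈ range n, (i + 1) * p.parts.count (i + 1) := by
    rw [Finset.sum_range]
    rfl
  rw [h2]
  conv_rhs => rw [← h1]
  refine Finset.sum_nbij' (fun i => i + 1) (fun a => a - 1) ?_ ?_ ?_ ?_ ?_
  · intro i hi
    rw [Finset.mem_range] at hi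
    rw [Finset.mem_Icc]
    omega
  · intro a ha
    rw [Finset.mem_Icc] at ha
    rw [Finset.mem_range]
    omega
  · intro i hi
    simp
  · intro a ha
    rw [Finset.mem_Icc] at ha
    show a - 1 + 1 = a
    omega
  · intro i hi
    exact mul_comm _ _

theorem card_mul_pow_le (n : ℕ) {x : ℝ} (hx : 0 < x) (hx1 : x < 1) :
    (Fintype.card n.Partition : ℝ) * x ^ n ≤ ∏ i : Fin n, (1 - x ^ ((i : ℕ) + 1))⁻¹ := by
  have h1 : (Fintype.card n.Partition : ℝ) * x ^ n =
      ∑ p : n.Partition, ∏ i : Fin n, x ^ (((i : ℕ) + 1) * (mult n p i : ℕ)) := by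
    have : ∀ p : n.Partition, ∏ i : Fin n, x ^ (((i : ℕ) + 1) * (mult n p i : ℕ)) = x ^ n := by
      intro p
      rw [Finset.prod_pow_eq_pow_sum, sum_mult]
    rw [Finset.sum_congr rfl fun p _ => this p, Finset.sum_const, Finset.card_univ, nsmul_eq_mul]
  rw [h1]
  calc ∑ p : n.Partition, ∏ i : Fin n, x ^ (((i : ℕ) + 1) * (mult n p i : ℕ))
      = ∑ m ∈ (univ : Finset n.Partition).image (mult n),
          ∏ i : Fin n, x ^ (((i : ℕ) + 1) * (m i : ℕ)) := by
        rw [Finset.sum_image fun p _ q _ h => mult_inj n h]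
    _ ≤ ∑ m : Fin n → Fin (n + 1), ∏ i : Fin n, x ^ (((i : ℕ) + 1) * (m i : ℕ)) :=
        Finset.sum_le_sum_of_subset_of_nonneg (Finset.subset_univ _) fun m _ _ =>
          Finset.prod_nonneg fun i _ => by positivity
    _ = ∏ i : Fin n, ∑ j : Fin (n + 1), x ^ (((i : ℕ) + 1) * (j : ℕ)) := by
        rw [Finset.prod_univ_sum]
        simp
    _ ≤ ∏ i : Fin n, (1 - x ^ ((i : ℕ) + 1))⁻¹ := by
        refine Finset.prod_le_prod (fun i _ => Finset.sum_nonneg fun j _ => by positivity)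
          fun i _ => ?_
        have hy : 0 < x ^ ((i : ℕ) + 1) := by positivity
        have hy1 : x ^ ((i : ℕ) + 1) < 1 := pow_lt_one₀ hx.le hx1 (by omega)
        have h2 : ∑ j : Fin (n + 1), x ^ (((i : ℕ) + 1) * (j : ℕ)) =
            ∑ j ∈ range (n + 1), (x ^ ((i : ℕ) + 1)) ^ j := by
          rw [Finset.sum_range]
          exact Finset.sum_congr rfl fun j _ => pow_mul _ _ _
        rw [h2, ← tsum_geometric_of_lt_one hy.le hy1]
        exact (summable_geometric_of_lt_one hy.le hy1).sum_le_tsum _ fun j _ => by positivity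

theorem log_prod_le (n : ℕ) {s : ℝ} (hs : 0 < s) :
    ∑ i : Fin n, - Real.log (1 - Real.exp (-s) ^ ((i : ℕ) + 1)) ≤ Real.pi ^ 2 / (6 * s) := by
  set x := Real.exp (-s) with hx
  have hx0 : 0 < x := Real.exp_pos _
  have hx1 : x < 1 := by rw [hx, Real.exp_lt_one_iff]; linarith
  have h1 : ∀ i : Fin n, HasSum (fun k : ℕ => (x ^ ((i : ℕ) + 1)) ^ (k + 1) / ((k : ℝ) + 1))
      (- Real.log (1 - x ^ ((i : ℕ) + 1))) := by
    intro i
    have hy : 0 < x ^ ((i : ℕ) + 1) := by positivity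
    have hy1 : x ^ ((i : ℕ) + 1) < 1 := pow_lt_one₀ hx0.le hx1 (by omega)
    exact Real.hasSum_pow_div_log_of_abs_lt_one (by rw [abs_of_pos hy]; exact hy1)
  have h2 : HasSum (fun k : ℕ => ∑ i : Fin n, (x ^ ((i : ℕ) + 1)) ^ (k + 1) / ((k : ℝ) + 1))
      (∑ i : Fin n, - Real.log (1 - x ^ ((i : ℕ) + 1))) := hasSum_sum fun i _ => h1 i
  have h3 : HasSum (fun k : ℕ => 1 / s * (1 / ((k : ℝ) + 1) ^ 2)) (1 / s * (Real.pi ^ 2 / 6)) := by
    refine HasSum.mul_left _ ?_
    have := hasSum_zeta_two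
    rw [← hasSum_nat_add_iff' 1] at this
    simpa using this
  have h4 := hasSum_le (fun k => ?_) h2 h3
  · calc _ ≤ 1 / s * (Real.pi ^ 2 / 6) := h4
      _ = Real.pi ^ 2 / (6 * s) := by field_simp
  · have hk : (0 : ℝ) < (k : ℝ) + 1 := by positivity
    have hz0 : 0 < x ^ (k + 1) := by positivity
    have hz1 : x ^ (k + 1) < 1 := pow_lt_one₀ hx0.le hx1 (by omega)
    have h5 : ∑ i : Fin n, (x ^ ((i : ℕ) + 1)) ^ (k + 1) ≤ x ^ (k + 1) / (1 - x ^ (k + 1)) := by
      have h6 : ∑ i : Fin n, (x ^ ((i : ℕ) + 1)) ^ (k + 1) =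
          x ^ (k + 1) * ∑ i ∈ range n, (x ^ (k + 1)) ^ i := by
        rw [Finset.sum_range, Finset.mul_sum]
        refine Finset.sum_congr rfl fun i _ => ?_
        rw [← pow_mul, ← pow_mul, ← pow_add]
        congr 1
        ring
      rw [h6, div_eq_mul_inv]
      refine mul_le_mul_of_nonneg_left ?_ hz0.le
      rw [← tsum_geometric_of_lt_one hz0.le hz1]
      exact (summable_geometric_of_lt_one hz0.le hz1).sum_le_tsum _ fun j _ => by positivity
    have h7 : x ^ (k + 1) / (1 - x ^ (k + 1)) ≤ 1 / (((k : ℝ) + 1) * s) := by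
      rw [div_le_div_iff₀ (by linarith) (by positivity)]
      have h8 : x ^ (k + 1) * Real.exp (((k : ℝ) + 1) * s) = 1 := by
        rw [hx, ← Real.exp_nat_mul, ← Real.exp_add]
        push_cast
        rw [show ((k : ℝ) + 1) * -s + ((k : ℝ) + 1) * s = 0 by ring, Real.exp_zero]
      have h9 : ((k : ℝ) + 1) * s + 1 ≤ Real.exp (((k : ℝ) + 1) * s) := Real.add_one_le_exp _
      nlinarith
    calc ∑ i : Fin n, (x ^ ((i : ℕ) + 1)) ^ (k + 1) / ((k : ℝ) + 1)
        = (∑ i : Fin n, (x ^ ((i : ℕ) + 1)) ^ (k + 1)) / ((k : ℝ) + 1) := by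
          rw [Finset.sum_div]
      _ ≤ (1 / (((k : ℝ) + 1) * s)) / ((k : ℝ) + 1) := by
          gcongr
          exact h5.trans h7
      _ = 1 / s * (1 / ((k : ℝ) + 1) ^ 2) := by
          field_simp

end PNx

open PNx in
theorem PN_thm : PNStmt := by
  intro n
  rcases Nat.eq_zero_or_pos n with rfl | hn
  · simp
  set c : ℝ := 2.5651 with hc
  have hn0 : (0 : ℝ) < n := by exact_mod_cast hn
  have hr : 0 < √(n : ℝ) := Real.sqrt_pos.2 hn0
  have hrr : √(n : ℝ) * √(n : ℝ) = n := Real.mul_self_sqrt hn0.le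
  set s : ℝ := c / (2 * √(n : ℝ)) with hs
  have hc0 : 0 < c := by rw [hc]; norm_num
  have hs0 : 0 < s := by positivity
  have hx0 : 0 < Real.exp (-s) := Real.exp_pos _
  have hx1 : Real.exp (-s) < 1 := by rw [Real.exp_lt_one_iff]; linarith
  have h1 := card_mul_pow_le n hx0 hx1
  have h2 := log_prod_le n hs0
  have h3 : ∏ i : Fin n, (1 - Real.exp (-s) ^ ((i : ℕ) + 1))⁻¹ =
      Real.exp (∑ i : Fin n, - Real.log (1 - Real.exp (-s) ^ ((i : ℕ) + 1))) := by
    rw [Real.exp_sum]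
    refine Finset.prod_congr rfl fun i _ => ?_
    have hy1 : Real.exp (-s) ^ ((i : ℕ) + 1) < 1 := pow_lt_one₀ hx0.le hx1 (by omega)
    rw [Real.exp_neg (Real.log _), Real.exp_log (by linarith)]
  rw [h3] at h1
  have h4 : (Fintype.card n.Partition : ℝ) * Real.exp (-s) ^ n ≤
      Real.exp (Real.pi ^ 2 / (6 * s)) := h1.trans (Real.exp_le_exp.2 h2)
  rw [← Real.exp_nat_mul] at h4
  have h5 : (Fintype.card n.Partition : ℝ) ≤ Real.exp (Real.pi ^ 2 / (6 * s)) *
      Real.exp ((n : ℝ) * s) := by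
    have h6 : Real.exp ((n : ℝ) * -s) * Real.exp ((n : ℝ) * s) = 1 := by
      rw [← Real.exp_add, show (n : ℝ) * -s + n * s = 0 by ring, Real.exp_zero]
    have h7 := mul_le_mul_of_nonneg_right h4 (Real.exp_pos ((n : ℝ) * s)).le
    rwa [mul_assoc, h6, mul_one] at h7
  refine h5.trans ?_
  rw [← Real.exp_add, Real.exp_le_exp]
  have h8 : (n : ℝ) * s = c / 2 * √(n : ℝ) := by
    have h81 : (n : ℝ) * s = (√(n : ℝ) * √(n : ℝ)) * s := by rw [hrr]
    rw [h81, hs]
    field_simp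
  have h9 : Real.pi ^ 2 / (6 * s) = Real.pi ^ 2 / (3 * c) * √(n : ℝ) := by
    rw [hs]
    field_simp
    ring
  have h10 : Real.pi ^ 2 / (3 * c) ≤ c / 2 := by
    rw [div_le_div_iff₀ (by positivity) (by norm_num)]
    have h11 := Real.pi_lt_d6
    have h12 := Real.pi_pos
    rw [hc]
    nlinarith
  rw [h8, h9]
  nlinarith [mul_le_mul_of_nonneg_right h10 hr.le]

end Pool.Agent.H37.UM
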