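import Pool.Agent.H37.UM.Stmts

set_option autoImplicit false

namespace Pool.Agent.H37.UM

open PowerSeries Finset

namespace UUx

theorem coeff_mul_range (f g : ℤ⟦X⟧) (k : ℕ) :
    coeff k (f * g) = ∑ a ∈ range (k + 1), coeff a f * coeff (k - a) g := by
  rw [coeff_mul]
  exact Finset.Nat.sum_antidiagonal_eq_sum_range_succ (fun i j => coeff i f * coeff j g) k

theorem sym_one : Sym 0 (1 : ℤ⟦X⟧) := by
  refine ⟨fun k hk => ?_, fun k hk => ?_⟩
  · rw [coeff_one, if_neg (by omega)]
  · have : k = 0 := by omega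
    subst this
    rfl

theorem sym_mul {D E : ℕ} {f g : ℤ⟦X⟧} (hf : Sym D f) (hg : Sym E g) : Sym (D + E) (f * g) := by
  refine ⟨fun k hk => ?_, fun k hk => ?_⟩
  · rw [coeff_mul]
    refine Finset.sum_eq_zero fun x hx => ?_
    rw [HasAntidiagonal.mem_antidiagonal] at hx
    by_cases h1 : D < x.1
    · rw [hf.top _ h1, zero_mul]
    · rw [hg.top x.2 (by omega), mul_zero]
  · have key : ∀ n : ℕ, coeff n (f * g) =
        ∑ x ∈ (antidiagonal n).filter (fun x => x.1 ≤ D ∧ x.2 ≤ E),
          coeff x.1 f * coeff x.2 g := by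
      intro n
      rw [coeff_mul]
      symm
      refine Finset.sum_subset (Finset.filter_subset _ _) ?_
      intro x hx hx'
      by_cases h1 : D < x.1
      · rw [hf.top _ h1, zero_mul]
      · by_cases h2 : E < x.2
        · rw [hg.top _ h2, mul_zero]
        · exact absurd (Finset.mem_filter.2 ⟨hx, by omega, by omega⟩) hx'
    rw [key, key]
    refine Finset.sum_nbij' (fun x => (D - x.1, E - x.2)) (fun x => (D - x.1, E - x.2))
      ?_ ?_ ?_ ?_ ?_
    · intro x hx
      simp only [Finset.mem_filter, HasAntidiagonal.mem_antidiagonal] at hx ⊢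
      omega
    · intro x hx
      simp only [Finset.mem_filter, HasAntidiagonal.mem_antidiagonal] at hx ⊢
      omega
    · intro x hx
      simp only [Finset.mem_filter, HasAntidiagonal.mem_antidiagonal] at hx
      ext <;> simp <;> omega
    · intro x hx
      simp only [Finset.mem_filter, HasAntidiagonal.mem_antidiagonal] at hx
      ext <;> simp <;> omega
    · intro x hx
      simp only [Finset.mem_filter, HasAntidiagonal.mem_antidiagonal] at hx
      rw [hf.sym x.1 hx.2.1, hg.sym x.2 hx.2.2]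

theorem sym_prod {s : Finset ℕ} {d : ℕ → ℕ} {f : ℕ → ℤ⟦X⟧} (h : ∀ m ∈ s, Sym (d m) (f m)) :
    Sym (∑ m ∈ s, d m) (∏ m ∈ s, f m) := by
  classical
  induction s using Finset.induction_on with
  | empty => simpa using sym_one
  | insert a s ha ih =>
    rw [Finset.sum_insert ha, Finset.prod_insert ha]
    exact sym_mul (h a (Finset.mem_insert_self _ _))
      (ih fun m hm => h m (Finset.mem_insert_of_mem hm))

/-- nonnegative coefficients with sum at most `A` -/
def Bd (f : ℤ⟦X⟧) (A : ℤ) : Prop :=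
  (∀ k, 0 ≤ coeff k f) ∧ ∀ K : ℕ, ∑ k ∈ range K, coeff k f ≤ A

theorem sum_mul (f g : ℤ⟦X⟧) (K : ℕ) : ∑ k ∈ range K, coeff k (f * g) =
    ∑ a ∈ range K, coeff a f * ∑ b ∈ range (K - a), coeff b g := by
  induction K with
  | zero => simp
  | succ K ih =>
    rw [Finset.sum_range_succ, ih, coeff_mul_range]
    have h1 : ∑ a ∈ range (K + 1), coeff a f * ∑ b ∈ range (K + 1 - a), coeff b g =
        ∑ a ∈ range (K + 1), (coeff a f * ∑ b ∈ range (K - a), coeff b g +
          coeff a f * coeff (K - a) g) := by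
      refine Finset.sum_congr rfl fun a ha => ?_
      rw [Finset.mem_range] at ha
      have : K + 1 - a = (K - a) + 1 := by omega
      rw [this, Finset.sum_range_succ, mul_add]
    rw [h1, Finset.sum_add_distrib, Finset.sum_range_succ (n := K)
      (f := fun a => coeff a f * ∑ b ∈ range (K - a), coeff b g)]
    simp

theorem bd_mul {f g : ℤ⟦X⟧} {A B : ℤ} (hf : Bd f A) (hg : Bd g B) : Bd (f * g) (A * B) := by
  refine ⟨fun k => ?_, fun K => ?_⟩
  · rw [coeff_mul]
    exact Finset.sum_nonneg fun x _ => mul_nonneg (hf.1 _) (hg.1 _)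
  · have hB : 0 ≤ B := by simpa using hg.2 0
    rw [sum_mul]
    calc ∑ a ∈ range K, coeff a f * ∑ b ∈ range (K - a), coeff b g
        ≤ ∑ a ∈ range K, coeff a f * B :=
          Finset.sum_le_sum fun a _ => mul_le_mul_of_nonneg_left (hg.2 _) (hf.1 a)
      _ = (∑ a ∈ range K, coeff a f) * B := by rw [Finset.sum_mul]
      _ ≤ A * B := mul_le_mul_of_nonneg_right (hf.2 K) hB

theorem bd_one : Bd 1 1 := by
  refine ⟨fun k => ?_, fun K => ?_⟩
  · rw [coeff_one]; split_ifs <;> norm_num
  · cases K with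
    | zero => simp
    | succ K => simp [coeff_one]

theorem bd_prod {ι : Type} {s : Finset ι} {A : ι → ℤ} {f : ι → ℤ⟦X⟧}
    (h : ∀ m ∈ s, Bd (f m) (A m)) : Bd (∏ m ∈ s, f m) (∏ m ∈ s, A m) := by
  classical
  induction s using Finset.induction_on with
  | empty => simpa using bd_one
  | insert a s ha ih =>
    rw [Finset.prod_insert ha, Finset.prod_insert ha]
    exact bd_mul (h a (Finset.mem_insert_self _ _))
      (ih fun m hm => h m (Finset.mem_insert_of_mem hm))

theorem bd_add {f g : ℤ⟦X⟧} {A B : ℤ} (hf : Bd f A) (hg : Bd g B) : Bd (f + g) (A + B) := by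
  refine ⟨fun k => ?_, fun K => ?_⟩
  · rw [map_add]; exact add_nonneg (hf.1 k) (hg.1 k)
  · simp only [map_add, Finset.sum_add_distrib]
    exact add_le_add (hf.2 K) (hg.2 K)

theorem bd_X_pow (i : ℕ) : Bd (X ^ i) 1 := by
  refine ⟨fun k => ?_, fun K => ?_⟩
  · rw [coeff_X_pow]; split_ifs <;> norm_num
  · simp only [coeff_X_pow, Finset.sum_ite_eq', Finset.mem_range]
    split_ifs <;> norm_num

theorem bd_iv (n : ℕ) : Bd (iv n) n := by
  unfold iv
  induction n with
  | zero =>
    refine ⟨fun k => by simp, fun K => by simp⟩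
  | succ n ih =>
    rw [Finset.sum_range_succ]
    push_cast
    exact bd_add ih (bd_X_pow n)

theorem bd_F (hOP : OPStmt) {m : ℕ} (hm : 1 ≤ m) : Bd (F m) m := by
  have h := (hOP.1 m hm).2.2.2
  have h1 : Bd (F m) ((op m : ℤ) * ∏ _a ∈ range (padicValNat 2 m), (2 : ℤ)) := by
    unfold F
    refine bd_mul (bd_iv _) (bd_prod fun a _ => ?_)
    have := bd_add bd_one (bd_X_pow (2 ^ (a + 1) * op m))
    norm_num at this
    exact this
  rw [Finset.prod_const, Finset.card_range] at h1
  have h2 : (op m : ℤ) * 2 ^ padicValNat 2 m = (m : ℤ) := by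
    conv_rhs => rw [h]
    push_cast
    ring
  rwa [h2] at h1

end UUx

open UUx in
theorem UU_thm (hOP : OPStmt) (hFF : FFStmt) : UUStmt := by
  have hpos : ∀ {j n m : ℕ}, m ∈ Ioc j n → 1 ≤ m := by
    intro j n m hm
    rw [Finset.mem_Ioc] at hm
    omega
  have hbd : ∀ j n, Bd (U j n) (∏ m ∈ Ioc j n, (m : ℤ)) := by
    intro j n
    exact bd_prod fun m hm => bd_F hOP (hpos hm)
  refine ⟨?_, ?_, ?_, ?_, ?_, ?_, ?_⟩
  · intro j n
    exact sym_prod fun m hm => hFF.2.2 m (hpos hm)
  · intro j n k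
    exact (hbd j n).1 k
  · intro j n
    unfold U
    rw [coeff_zero_eq_constantCoeff_apply, map_prod]
    refine Finset.prod_eq_one fun m hm => ?_
    rw [← coeff_zero_eq_constantCoeff_apply, hFF.1 m (hpos hm), if_pos]
    have := (hOP.1 m (hpos hm)).2.1
    have h1 := hpos hm
    refine ⟨by omega, ?_⟩
    rw [Nat.zero_mod]
    exact this
  · intro N k hN
    obtain ⟨M, rfl⟩ : ∃ M, N = M + 3 := ⟨N - 3, by omega⟩
    have h1 : M + 3 - 3 = M := by omega
    rw [h1]
    have h := hbd M (M + 3)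
    have h2 : ∏ m ∈ Ioc M (M + 3), (m : ℤ) = (M + 1) * (M + 2) * (M + 3) := by
      rw [show M + 3 = M + 1 + 1 + 1 from rfl, Finset.prod_Ioc_succ_top (by omega),
        Finset.prod_Ioc_succ_top (by omega), Finset.prod_Ioc_succ_top (by omega)]
      simp
      ring
    rw [h2] at h
    have h3 : coeff k (U M (M + 3)) ≤ (M + 1) * (M + 2) * (M + 3) := by
      refine le_trans ?_ (h.2 (k + 1))
      exact Finset.single_le_sum (f := fun k => coeff k (U M (M + 3)))
        (fun i _ => h.1 i) (Finset.self_mem_range_succ k)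
    push_cast
    have h4 : (0 : ℤ) ≤ M := by positivity
    nlinarith [h3, h4, mul_nonneg h4 h4]
  · intro i j n hij hjn
    unfold U
    rw [mul_comm]
    exact Finset.prod_Ioc_consecutive _ hij hjn
  · intro i j n hij hjn
    unfold dU
    rw [add_comm]
    exact Finset.sum_Ioc_consecutive _ hij hjn
  · intro j n
    unfold dU
    refine Finset.even_sum _ fun m hm => ?_
    have h := hOP.1 m (hpos hm)
    obtain ⟨c, hc⟩ := h.1
    have h2 := h.2.2.1
    exact ⟨m - c - 1, by omega⟩

end Pool.Agent.H37.UM
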